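import Mathlib

/-!
Classical projective varieties over a field `K` (with points over the algebraic closure), their
regular self-maps, and the first dynamical degree.

Throughout `L` is an algebraically closed field (in the application `AlgebraicClosure K`), and
`PP L ι` is the set of `L`-points of the projective space with homogeneous coordinates indexed by
the finite type `ι` (so its dimension is `|ι| - 1`).
-/

namespace Pool.Agent.Lib.MP_3de96c_nt

open MvPolynomial Filter Topology

/-- The `L`-points of projective space with homogeneous coordinates indexed by `ι`. -/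
abbrev PP (L ι : Type*) [Field L] := Projectivization L (ι → L)

/-- `V` is the set of common zeros of some set of homogeneous polynomials with coefficients in
`k`. For `k = L` this says that `V` is Zariski closed; for a subfield `k` it says that `V` is
closed and defined over `k`. -/
def ClosedOver (k : Type*) {L ι : Type*} [Field k] [Field L] [Algebra k L]
    (V : Set (PP L ι)) : Prop :=
  ∃ S : Set (MvPolynomial ι k), (∀ F ∈ S, ∃ d, F.IsHomogeneous d) ∧
    V = {x | ∀ F ∈ S, aeval x.rep F = 0}

/-- `V` is nonempty and not covered by two Zariski closed sets unless one of them contains it. -/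
def Irred {L ι : Type*} [Field L] (V : Set (PP L ι)) : Prop :=
  V.Nonempty ∧ ∀ A B : Set (PP L ι), ClosedOver L A → ClosedOver L B →
    V ⊆ A ∪ B → V ⊆ A ∨ V ⊆ B

/-- The map `f : V → V` is a morphism defined over `k`: near every point it is given by
homogeneous polynomials of one degree with coefficients in `k`. -/
def RegularOver (k : Type*) {L ι : Type*} [Field k] [Field L] [Algebra k L]
    (V : Set (PP L ι)) (f : V → V) : Prop :=
  ∀ x : V, ∃ (d : ℕ) (F : ι → MvPolynomial ι k), (∀ i, (F i).IsHomogeneous d) ∧
    (fun i => aeval (x : PP L ι).rep (F i)) ≠ 0 ∧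
    ∀ (y : V) (h : (fun i => aeval (y : PP L ι).rep (F i)) ≠ 0),
      (f y : PP L ι) = Projectivization.mk L _ h

/-- The affine bi-cone over a subset of `P × P`. -/
def cone {L ι : Type*} [Field L] (Γ : Set (PP L ι × PP L ι)) : Set ((ι → L) × (ι → L)) :=
  {q | ∃ (h₁ : q.1 ≠ 0) (h₂ : q.2 ≠ 0),
    (Projectivization.mk L q.1 h₁, Projectivization.mk L q.2 h₂) ∈ Γ}

/-- Restriction of polynomials in two groups of variables to functions on the bi-cone. -/
noncomputable def restr {L ι : Type*} [Field L] (Γ : Set (PP L ι × PP L ι)) :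
    MvPolynomial (ι ⊕ ι) L →ₗ[L] (cone Γ → L) :=
  LinearMap.pi fun q => (aeval (Sum.elim q.1.1 q.1.2) : MvPolynomial (ι ⊕ ι) L →ₐ[L] L).toLinearMap

/-- The bihomogeneous polynomials of bidegree `(a, b)` in two groups of variables. -/
noncomputable def biHom (L ι : Type*) [Field L] (a b : ℕ) :
    Submodule L (MvPolynomial (ι ⊕ ι) L) :=
  weightedHomogeneousSubmodule L
    (Sum.elim (fun _ => ((1, 0) : ℕ × ℕ)) (fun _ => ((0, 1) : ℕ × ℕ))) (a, b)

/-- The bigraded Hilbert function of `Γ ⊆ P × P`: the dimension of the space of functions on the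
bi-cone over `Γ` given by bihomogeneous polynomials of bidegree `(a, b)`. -/
noncomputable def hilb {L ι : Type*} [Field L] (Γ : Set (PP L ι × PP L ι)) (a b : ℕ) : ℕ :=
  Module.finrank L ((biHom L ι a b).map (restr Γ))

/-- `Γ` has bigraded Hilbert polynomial of total degree `D`, and `e` is `(D-1)!` times its
coefficient of `a^(D-1) b` (for `D = 0` we put `e = 1`). If `Γ` is the graph of a morphism
`g : V → V`, then `D = dim V` and `e` is the intersection number `g^*H · H^(D-1)`, where `H` is
the hyperplane class. -/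
def HasMixedDegree {L ι : Type*} [Field L] (Γ : Set (PP L ι × PP L ι)) (D : ℕ) (e : ℚ) : Prop :=
  ∃ c : ℕ → ℕ → ℚ,
    (∃ N : ℕ, ∀ a b : ℕ, N ≤ a → N ≤ b → (hilb Γ a b : ℚ) =
      ∑ i ∈ Finset.range (D + 1), ∑ j ∈ Finset.range (D + 1 - i), c i j * a ^ i * b ^ j) ∧
    (∃ i j, i + j = D ∧ c i j ≠ 0) ∧
    e = if D = 0 then 1 else (Nat.factorial (D - 1) : ℚ) * c (D - 1) 1

/-- The graph of the `n`-th iterate of `f`, restricted to `Y`. -/
def graph {L ι : Type*} [Field L] {V : Set (PP L ι)} (f : V → V) (Y : Set V) (n : ℕ) :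
    Set (PP L ι × PP L ι) :=
  {q | ∃ x ∈ Y, q = ((x : PP L ι), (f^[n] x : PP L ι))}

/-- `δ` is the first dynamical degree of `f` restricted to the `f`-invariant subvariety `Y`:
the limit of `((f^n)^*H · H^(dim Y - 1))^(1/n)`. -/
def FirstDynDeg {L ι : Type*} [Field L] {V : Set (PP L ι)} (f : V → V) (Y : Set V) (δ : ℝ) :
    Prop :=
  ∃ (D : ℕ) (e : ℕ → ℚ), (∀ n, HasMixedDegree (graph f Y n) D (e n)) ∧
    Tendsto (fun n : ℕ => ((e n : ℚ) : ℝ) ^ ((1 : ℝ) / n)) atTop (𝓝 δ)

/-- Coefficients of a polynomial in one variable are determined by its values at large integers. -/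
lemma coeff_unique_one (n : ℕ) (c : ℕ → ℚ) (N : ℕ)
    (h : ∀ a : ℕ, N ≤ a → ∑ i ∈ Finset.range n, c i * (a : ℚ) ^ i = 0) (i : ℕ) (hi : i < n) :
    c i = 0 := by
  set P : Polynomial ℚ := ∑ i ∈ Finset.range n, Polynomial.C (c i) * Polynomial.X ^ i with hP
  have h0 : P = 0 := by
    apply Polynomial.eq_of_infinite_eval_eq
    apply Set.infinite_of_injective_forall_mem (f := fun a : ℕ => ((N + a : ℕ) : ℚ))
    · intro a b hab
      have := Nat.cast_injective (R := ℚ) hab
      omega
    · intro a
      have := h (N + a) (by omega)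
      simp only [Set.mem_ofPred_eq, hP, Polynomial.eval_finsetSum, Polynomial.eval_mul,
        Polynomial.eval_C, Polynomial.eval_pow, Polynomial.eval_X, Polynomial.eval_zero]
      exact this
  have h1 : P.coeff i = c i := by
    simp only [hP, Polynomial.finsetSum_coeff, Polynomial.coeff_C_mul, Polynomial.coeff_X_pow]
    simp [hi]
  rw [← h1, h0, Polynomial.coeff_zero]

/-- The same in two variables. -/
lemma coeff_unique_two (n : ℕ) (c : ℕ → ℕ → ℚ) (N : ℕ)
    (h : ∀ a b : ℕ, N ≤ a → N ≤ b →
      ∑ i ∈ Finset.range n, ∑ j ∈ Finset.range n, c i j * (a : ℚ) ^ i * (b : ℚ) ^ j = 0)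
    (i j : ℕ) (hi : i < n) (hj : j < n) : c i j = 0 := by
  refine coeff_unique_one n (fun j => c i j) N (fun b hb => ?_) j hj
  refine coeff_unique_one n (fun i => ∑ j ∈ Finset.range n, c i j * (b : ℚ) ^ j) N
    (fun a ha => ?_) i hi
  rw [← h a b ha hb]
  refine Finset.sum_congr rfl fun i _ => ?_
  rw [Finset.sum_mul]
  refine Finset.sum_congr rfl fun j _ => ?_
  ring

/-- The dimension `D` and the number `e` are determined by `Γ`. -/
theorem HasMixedDegree.unique {L ι : Type*} [Field L] {Γ : Set (PP L ι × PP L ι)} {D D' : ℕ}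
    {e e' : ℚ} (h : HasMixedDegree Γ D e) (h' : HasMixedDegree Γ D' e') : D = D' ∧ e = e' := by
  obtain ⟨c, ⟨N, hN⟩, ⟨i0, j0, hij, hc0⟩, he⟩ := h
  obtain ⟨c', ⟨N', hN'⟩, ⟨i0', j0', hij', hc0'⟩, he'⟩ := h'
  -- extend by zero
  have ext : ∀ (D n : ℕ) (c : ℕ → ℕ → ℚ) (a b : ℚ), D < n →
      ∑ i ∈ Finset.range (D + 1), ∑ j ∈ Finset.range (D + 1 - i), c i j * a ^ i * b ^ j =
      ∑ i ∈ Finset.range n, ∑ j ∈ Finset.range n,
        (if i + j ≤ D then c i j else 0) * a ^ i * b ^ j := by
    intro D n c a b hn
    rw [← Finset.sum_subset (s₁ := Finset.range (D + 1)) (s₂ := Finset.range n)]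
    · refine Finset.sum_congr rfl fun i hi => ?_
      rw [Finset.mem_range] at hi
      rw [← Finset.sum_subset (s₁ := Finset.range (D + 1 - i)) (s₂ := Finset.range n)]
      · refine Finset.sum_congr rfl fun j hj => ?_
        rw [Finset.mem_range] at hj
        rw [if_pos (by omega)]
      · intro j hj
        rw [Finset.mem_range] at hj ⊢
        omega
      · intro j _ hj
        rw [Finset.mem_range] at hj
        rw [if_neg (by omega)]; ring
    · intro j hj
      rw [Finset.mem_range] at hj ⊢
      omega
    · intro i _ hi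
      rw [Finset.mem_range] at hi
      apply Finset.sum_eq_zero
      intro j _
      rw [if_neg (by omega)]; ring
  set n := D + D' + 1 with hn
  have key : ∀ i j, i < n → j < n →
      (if i + j ≤ D then c i j else 0) - (if i + j ≤ D' then c' i j else 0) = 0 := by
    intro i j hi hj
    refine coeff_unique_two n (fun i j => (if i + j ≤ D then c i j else 0) -
      (if i + j ≤ D' then c' i j else 0)) (N + N') (fun a b ha hb => ?_) i j hi hj
    have h1 := hN a b (by omega) (by omega)
    have h2 := hN' a b (by omega) (by omega)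
    rw [ext D n c a b (by omega)] at h1
    rw [ext D' n c' a b (by omega)] at h2
    have h3 := h1.symm.trans h2
    rw [← sub_eq_zero, ← Finset.sum_sub_distrib] at h3
    refine Eq.trans ?_ h3
    refine Finset.sum_congr rfl fun i _ => ?_
    rw [← Finset.sum_sub_distrib]
    refine Finset.sum_congr rfl fun j _ => ?_
    ring
  have hD : D = D' := by
    rcases lt_trichotomy D D' with hlt | heq | hlt
    · exfalso
      have := key i0' j0' (by omega) (by omega)
      rw [if_neg (by omega), if_pos (by omega)] at this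
      apply hc0'; linarith
    · exact heq
    · exfalso
      have := key i0 j0 (by omega) (by omega)
      rw [if_pos (by omega), if_neg (by omega)] at this
      apply hc0; linarith
  refine ⟨hD, ?_⟩
  subst hD
  rw [he, he']
  by_cases h0 : D = 0
  · rw [if_pos h0, if_pos h0]
  · rw [if_neg h0, if_neg h0]
    have := key (D - 1) 1 (by omega) (by omega)
    rw [if_pos (by omega), if_pos (by omega)] at this
    have h1 : c (D - 1) 1 = c' (D - 1) 1 := by linarith
    rw [h1]

/-- The first dynamical degree is unique. -/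
theorem FirstDynDeg.unique {L ι : Type*} [Field L] {V : Set (PP L ι)} {f : V → V} {Y : Set V}
    {δ δ' : ℝ} (h : FirstDynDeg f Y δ) (h' : FirstDynDeg f Y δ') : δ = δ' := by
  obtain ⟨D, e, he, hlim⟩ := h
  obtain ⟨D', e', he', hlim'⟩ := h'
  have : e = e' := by
    funext n
    exact ((he n).unique (he' n)).2
  subst this
  exact tendsto_nhds_unique hlim hlim'

/-- `Y` is `f`-periodic of small dynamical degree: for some `s > 0` with `f^s(Y) = Y` the first
dynamical degree of `f^s` on `Y` is smaller than that of `f^s`. -/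
def SDD {L ι : Type*} [Field L] {V : Set (PP L ι)} (f : V → V) (Y : Set V) : Prop :=
  ∃ s : ℕ, 0 < s ∧ f^[s] '' Y = Y ∧ ∃ δY δ : ℝ,
    FirstDynDeg (f^[s]) Y δY ∧ FirstDynDeg (f^[s]) Set.univ δ ∧ δY < δ

/-- The degree `[K(x) : K]` of a point `x`, where `K(x)` is generated by all ratios of
coordinates of `x`. -/
noncomputable def ptDegree (K : Type*) {L ι : Type*} [Field K] [Field L] [Algebra K L]
    (x : PP L ι) : ℕ :=
  Module.finrank K (IntermediateField.adjoin K {t : L | ∃ i j, x.rep j ≠ 0 ∧ t = x.rep i / x.rep j})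

/-- A (geometrically irreducible) projective variety over `K`, given by its points over the
algebraic closure. -/
structure ProjVar (K ι : Type*) [Field K] where
  /-- the points -/
  pts : Set (PP (AlgebraicClosure K) ι)
  /-- it is closed and defined over `K` -/
  closed : ClosedOver K pts
  /-- it is irreducible -/
  irred : Irred pts

end Pool.Agent.Lib.MP_3de96c_nt
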