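import Mathlib
import Pool.Agent.Lib.MP_3de96c_nt.Defs

/-!
Computing bigraded Hilbert functions through parametrisations.
-/

namespace Pool.Agent.Lib.MP_3de96c_nt

open MvPolynomial Filter Topology

section weights

variable {ι κ : Type*} [Fintype ι] [Fintype κ]

/-- the two-block weight -/
abbrev bw (ι κ : Type*) : ι ⊕ κ → ℕ × ℕ :=
  Sum.elim (fun _ => ((1, 0) : ℕ × ℕ)) (fun _ => ((0, 1) : ℕ × ℕ))

lemma weight_bw (d : (ι ⊕ κ) →₀ ℕ) :
    Finsupp.weight (bw ι κ) d = (∑ i, d (Sum.inl i), ∑ k, d (Sum.inr k)) := by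
  rw [Finsupp.weight_apply, Finsupp.sum_fintype _ _ (by simp), Fintype.sum_sum_type]
  ext
  · simp [Prod.fst_sum]
  · simp [Prod.snd_sum]

/-- Finite rank of a bihomogeneous component is the number of monomials. -/
lemma finrank_wh (L : Type*) [Field L] (A B : ℕ) :
    Module.finrank L (weightedHomogeneousSubmodule L (bw ι κ) (A, B)) =
      Nat.card {d : (ι ⊕ κ) →₀ ℕ // Finsupp.weight (bw ι κ) d = (A, B)} := by
  rw [weightedHomogeneousSubmodule_eq_finsupp_supported]
  have e := AddMonoidAlgebra.supportedEquivFinsupp (R := L) (S := L)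
    {d : (ι ⊕ κ) →₀ ℕ | Finsupp.weight (bw ι κ) d = (A, B)}
  rw [e.finrank_eq]
  have hfin : Finite {d : (ι ⊕ κ) →₀ ℕ // Finsupp.weight (bw ι κ) d = (A, B)} := by
    have hinj : Function.Injective
        (fun d : {d : (ι ⊕ κ) →₀ ℕ // Finsupp.weight (bw ι κ) d = (A, B)} =>
          (fun x => (⟨d.1 x, by
            have := d.2
            rw [weight_bw, Prod.mk.injEq] at this
            rcases x with i | k
            · have h1 := Finset.single_le_sum (f := fun i => d.1 (Sum.inl i))
                (fun _ _ => Nat.zero_le _) (Finset.mem_univ i)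
              omega
            · have h1 := Finset.single_le_sum (f := fun i => d.1 (Sum.inr i))
                (fun _ _ => Nat.zero_le _) (Finset.mem_univ k)
              omega⟩ : Fin (A + B + 1)))) := by
      intro d d' h
      apply Subtype.ext
      ext x
      have := congrFun h x
      simpa using this
    exact Finite.of_injective _ hinj
  have : Fintype {d : (ι ⊕ κ) →₀ ℕ // Finsupp.weight (bw ι κ) d = (A, B)} := Fintype.ofFinite _
  have h2 : Module.finrank L ({d : (ι ⊕ κ) →₀ ℕ // Finsupp.weight (bw ι κ) d = (A, B)} →₀ L) =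
    Fintype.card {d : (ι ⊕ κ) →₀ ℕ // Finsupp.weight (bw ι κ) d = (A, B)} :=
    Module.finrank_finsupp_self L
  rw [Nat.card_eq_fintype_card, ← h2]
  rfl

lemma card_one (σ : Type*) [Fintype σ] (n : ℕ) :
    Nat.card {f : σ →₀ ℕ // ∑ i, f i = n} = (Fintype.card σ + n - 1).choose n := by
  classical
  have := Finset.card_finsuppAntidiag_nat_eq_choose (s := (Finset.univ : Finset σ)) n
  rw [Finset.card_univ] at this
  rw [← this, ← Fintype.card_coe, ← Nat.card_eq_fintype_card]
  apply Nat.card_congr
  apply Equiv.subtypeEquivRight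
  intro f
  rw [Finset.mem_finsuppAntidiag]
  simp

/-- number of monomials of bidegree `(A, B)`. -/
lemma card_wh (A B : ℕ) :
    Nat.card {d : (ι ⊕ κ) →₀ ℕ // Finsupp.weight (bw ι κ) d = (A, B)} =
      (Fintype.card ι + A - 1).choose A * (Fintype.card κ + B - 1).choose B := by
  classical
  rw [← card_one ι A, ← card_one κ B, ← Nat.card_prod]
  apply Nat.card_congr
  refine ⟨fun d => (⟨(Finsupp.sumFinsuppEquivProdFinsupp d.1).1, ?_⟩,
    ⟨(Finsupp.sumFinsuppEquivProdFinsupp d.1).2, ?_⟩),
    fun q => ⟨Finsupp.sumFinsuppEquivProdFinsupp.symm (q.1.1, q.2.1), ?_⟩, ?_, ?_⟩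
  · have := d.2
    rw [weight_bw, Prod.mk.injEq] at this
    simpa using this.1
  · have := d.2
    rw [weight_bw, Prod.mk.injEq] at this
    simpa using this.2
  · rw [weight_bw, Prod.mk.injEq]
    refine ⟨?_, ?_⟩
    · simpa using q.1.2
    · simpa using q.2.2
  · intro d
    apply Subtype.ext
    simp
  · intro q
    ext <;> simp

end weights

section param

variable {L : Type*} [Field L] {ι τ : Type*}

/-- scaling of bihomogeneous polynomials -/
lemma biHom_eval [Fintype ι] {a b : ℕ} {F : MvPolynomial (ι ⊕ ι) L} (hF : F ∈ biHom L ι a b)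
    (u u' : ι → L) (c c' : L) :
    aeval (Sum.elim (fun i => c * u i) (fun i => c' * u' i)) F =
      c ^ a * c' ^ b * aeval (Sum.elim u u') F := by
  have hF' : F.IsWeightedHomogeneous (bw ι ι) (a, b) := hF
  induction hF' using IsWeightedHomogeneous.induction_on with
  | zero => simp
  | add p q hp hq h1 h2 =>
    rw [map_add, map_add, h1 hp, h2 hq]; ring
  | monomial d r hr =>
    rw [weight_bw, Prod.mk.injEq] at hr
    rw [aeval_monomial, aeval_monomial, Finsupp.prod_fintype _ _ (by simp),
      Finsupp.prod_fintype _ _ (by simp), Fintype.prod_sum_type, Fintype.prod_sum_type]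
    simp only [Sum.elim_inl, Sum.elim_inr, mul_pow, Finset.prod_mul_distrib]
    rw [Finset.prod_pow_eq_pow_sum, Finset.prod_pow_eq_pow_sum, hr.1, hr.2]
    ring

/-- The Hilbert function can be computed on a parametrisation of the cone. -/
lemma hilb_eq_param [Fintype ι] [Infinite L] (Γ : Set (PP L ι × PP L ι))
    (U U' : ι → MvPolynomial τ L) (h : MvPolynomial τ L) (hh : h ≠ 0)
    (h1 : ∀ q ∈ cone Γ, ∃ (t : τ → L) (c c' : L),
      q = (fun i => c * aeval t (U i), fun i => c' * aeval t (U' i)))
    (h2 : ∀ t : τ → L, aeval t h ≠ 0 →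
      ((fun i => aeval t (U i), fun i => aeval t (U' i)) : (ι → L) × (ι → L)) ∈ cone Γ)
    (a b : ℕ) :
    hilb Γ a b = Module.finrank L ((biHom L ι a b).map
      (aeval (Sum.elim U U') : MvPolynomial (ι ⊕ ι) L →ₐ[L] MvPolynomial τ L).toLinearMap) := by
  unfold hilb
  set Φ := (aeval (Sum.elim U U') : MvPolynomial (ι ⊕ ι) L →ₐ[L] MvPolynomial τ L) with hΦ
  have hcomp : ∀ (t : τ → L) (F : MvPolynomial (ι ⊕ ι) L),
      aeval t (Φ F) = aeval (Sum.elim (fun i => aeval t (U i)) (fun i => aeval t (U' i))) F := by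
    intro t F
    have : (aeval t : MvPolynomial τ L →ₐ[L] L).comp Φ =
        aeval (Sum.elim (fun i => aeval t (U i)) (fun i => aeval t (U' i))) := by
      apply MvPolynomial.algHom_ext
      intro i
      rcases i with i | i <;> simp [hΦ]
    exact congrFun (congrArg DFunLike.coe this) F
  have hker : LinearMap.ker ((restr Γ).domRestrict (biHom L ι a b)) =
      LinearMap.ker (Φ.toLinearMap.domRestrict (biHom L ι a b)) := by
    ext F
    rw [LinearMap.mem_ker, LinearMap.mem_ker, LinearMap.domRestrict_apply,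
      LinearMap.domRestrict_apply]
    have hF := F.2
    constructor
    · intro hz
      by_contra hne
      have hne' : Φ F.1 ≠ 0 := hne
      have hprod : Φ F.1 * h ≠ 0 := mul_ne_zero hne' hh
      have : ∃ t : τ → L, aeval t (Φ F.1 * h) ≠ 0 := by
        by_contra hall
        push Not at hall
        apply hprod
        apply MvPolynomial.funext
        intro t
        have := hall t
        rw [map_zero, ← this, ← MvPolynomial.coe_aeval_eq_eval]
        rfl
      obtain ⟨t, ht⟩ := this
      rw [map_mul] at ht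
      have ht1 := left_ne_zero_of_mul ht
      have ht2 := right_ne_zero_of_mul ht
      apply ht1
      rw [hcomp]
      have := congrFun hz ⟨_, h2 t ht2⟩
      exact this
    · intro hz
      funext q
      obtain ⟨t, c, c', hq⟩ := h1 q.1 q.2
      have h3 : restr Γ F.1 q = aeval (Sum.elim q.1.1 q.1.2) F.1 := rfl
      rw [h3, hq]
      change aeval (Sum.elim (fun i => c * aeval t (U i)) (fun i => c' * aeval t (U' i))) F.1 = 0
      rw [biHom_eval hF, ← hcomp]
      have hz' : Φ F.1 = 0 := hz
      rw [hz', map_zero, mul_zero]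
  rw [← LinearMap.range_domRestrict, ← LinearMap.range_domRestrict]
  rw [← (LinearMap.quotKerEquivRange ((restr Γ).domRestrict (biHom L ι a b))).finrank_eq,
    ← (LinearMap.quotKerEquivRange (Φ.toLinearMap.domRestrict (biHom L ι a b))).finrank_eq]
  exact (Submodule.quotEquivOfEq _ _ hker).finrank_eq

end param

end Pool.Agent.Lib.MP_3de96c_nt
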