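import Mathlib
import Pool.Agent.Lib.MP_3de96c_nt.Hilb

/-!
Generalities on projective sets: representatives, irreducibility of parametrised sets.
-/

namespace Pool.Agent.Lib.MP_3de96c_nt

open MvPolynomial Filter Topology

section

variable {L : Type*} [Field L] {ι : Type*} [Fintype ι]

/-- scaling of homogeneous polynomials, with coefficients in a subfield -/
lemma hom_eval {k : Type*} [Field k] [Algebra k L] {d : ℕ} {F : MvPolynomial ι k}
    (hF : F.IsHomogeneous d) (u : ι → L) (c : L) :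
    aeval (fun i => c * u i) F = c ^ d * aeval u F := by
  have hF' : F.IsWeightedHomogeneous 1 d := hF
  induction hF' using IsWeightedHomogeneous.induction_on with
  | zero => simp
  | add p q hp hq h1 h2 =>
    rw [map_add, map_add, h1 hp, h2 hq]; ring
  | monomial e r hr =>
    rw [Finsupp.weight_apply, Finsupp.sum_fintype _ _ (by simp)] at hr
    rw [aeval_monomial, aeval_monomial, Finsupp.prod_fintype _ _ (by simp),
      Finsupp.prod_fintype _ _ (by simp)]
    simp only [mul_pow, Finset.prod_mul_distrib]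
    rw [Finset.prod_pow_eq_pow_sum]
    have : ∑ i, e i = d := by simpa using hr
    rw [this]
    ring

lemma rep_mk (v : ι → L) (hv : v ≠ 0) :
    ∃ c : L, c ≠ 0 ∧ (Projectivization.mk L v hv).rep = fun i => c * v i := by
  obtain ⟨a, ha⟩ := Projectivization.exists_smul_eq_mk_rep L v hv
  refine ⟨a, a.ne_zero, ?_⟩
  rw [← ha]
  rfl

lemma eval_rep_mk {k : Type*} [Field k] [Algebra k L] {d : ℕ} {F : MvPolynomial ι k}
    (hF : F.IsHomogeneous d) (v : ι → L) (hv : v ≠ 0) :
    aeval (Projectivization.mk L v hv).rep F = 0 ↔ aeval v F = 0 := by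
  obtain ⟨c, hc, h⟩ := rep_mk v hv
  rw [h, hom_eval hF]
  constructor
  · intro h
    rcases mul_eq_zero.mp h with h | h
    · exact absurd h (pow_ne_zero _ hc)
    · exact h
  · intro h; rw [h, mul_zero]

lemma mk_eq_mk_iff_scal (v w : ι → L) (hv : v ≠ 0) (hw : w ≠ 0) :
    Projectivization.mk L v hv = Projectivization.mk L w hw ↔
      ∃ c : L, c ≠ 0 ∧ v = fun i => c * w i := by
  rw [Projectivization.mk_eq_mk_iff]
  constructor
  · rintro ⟨a, ha⟩
    refine ⟨a, a.ne_zero, ?_⟩
    rw [← ha]; rfl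
  · rintro ⟨c, hc, h⟩
    refine ⟨Units.mk0 c hc, ?_⟩
    rw [h]; rfl

/-- parametrised sets are irreducible -/
lemma irred_param [Infinite L] {τ : Type*} (U : ι → MvPolynomial τ L) (V : Set (PP L ι))
    (hne : V.Nonempty)
    (hV : ∀ w : PP L ι, w ∈ V ↔ ∃ (t : τ → L) (h : (fun i => aeval t (U i)) ≠ 0),
      w = Projectivization.mk L _ h) : Irred V := by
  refine ⟨hne, ?_⟩
  rintro A B ⟨SA, hSA, hA⟩ ⟨SB, hSB, hB⟩ hAB
  by_contra hcon
  push Not at hcon
  obtain ⟨h1, h2⟩ := hcon
  -- a nonzero coordinate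
  obtain ⟨w0, hw0⟩ := hne
  obtain ⟨t0, ht0, -⟩ := (hV w0).mp hw0
  obtain ⟨i0, hi0⟩ := Function.ne_iff.mp ht0
  have hU : U i0 ≠ 0 := by
    intro h; apply hi0; simp [h]
  have hcomp : ∀ (t : τ → L) (F : MvPolynomial ι L),
      aeval t (aeval U F : MvPolynomial τ L) = aeval (fun i => aeval t (U i)) F := by
    intro t F
    have : (aeval t : MvPolynomial τ L →ₐ[L] L).comp (aeval U) =
        aeval (fun i => aeval t (U i)) := by
      apply MvPolynomial.algHom_ext
      intro i
      simp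
    exact congrFun (congrArg DFunLike.coe this) F
  have key : ∀ (S : Set (MvPolynomial ι L)) (C : Set (PP L ι)),
      (∀ F ∈ S, ∃ d, F.IsHomogeneous d) → C = {x | ∀ F ∈ S, aeval x.rep F = 0} →
      ¬ V ⊆ C → ∃ F ∈ S, (∃ d, F.IsHomogeneous d) ∧ (aeval U F : MvPolynomial τ L) ≠ 0 := by
    intro S C hS hC hVC
    obtain ⟨w, hwV, hwC⟩ := Set.not_subset.mp hVC
    rw [hC] at hwC
    have hwC' : ¬ ∀ F ∈ S, aeval w.rep F = 0 := hwC
    push Not at hwC'
    obtain ⟨F, hFS, hF⟩ := hwC'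
    obtain ⟨d, hd⟩ := hS F hFS
    obtain ⟨t, ht, rfl⟩ := (hV w).mp hwV
    refine ⟨F, hFS, ⟨d, hd⟩, ?_⟩
    intro h0
    apply hF
    rw [eval_rep_mk hd, ← hcomp, h0, map_zero]
  obtain ⟨F, hFS, ⟨d, hd⟩, hF0⟩ := key SA A hSA hA h1
  obtain ⟨G, hGS, ⟨e, he⟩, hG0⟩ := key SB B hSB hB h2
  have hprod : (aeval U F : MvPolynomial τ L) * aeval U G * U i0 ≠ 0 :=
    mul_ne_zero (mul_ne_zero hF0 hG0) hU
  have : ∃ t : τ → L, aeval t ((aeval U F : MvPolynomial τ L) * aeval U G * U i0) ≠ 0 := by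
    by_contra hall
    push Not at hall
    apply hprod
    apply MvPolynomial.funext
    intro t
    have := hall t
    rw [map_zero, ← this, ← MvPolynomial.coe_aeval_eq_eval]
    rfl
  obtain ⟨t, ht⟩ := this
  rw [map_mul, map_mul] at ht
  have ht1 := right_ne_zero_of_mul ht
  have ht2 := left_ne_zero_of_mul (left_ne_zero_of_mul ht)
  have ht3 := right_ne_zero_of_mul (left_ne_zero_of_mul ht)
  have hne : (fun i => aeval t (U i)) ≠ 0 := by
    intro h; exact ht1 (congrFun h i0)
  have hmem : Projectivization.mk L _ hne ∈ V := (hV _).mpr ⟨t, hne, rfl⟩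
  rcases hAB hmem with h | h
  · rw [hA] at h
    have := h F hFS
    rw [eval_rep_mk hd, ← hcomp] at this
    exact ht2 this
  · rw [hB] at h
    have := h G hGS
    rw [eval_rep_mk he, ← hcomp] at this
    exact ht3 this

end

end Pool.Agent.Lib.MP_3de96c_nt
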