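import Mathlib
import Pool.Agent.Lib.MP_3de96c_nt.Basic

/-!
The Segre variety `P² × P¹ ⊆ P⁵` and the self-map `(x, z) ↦ (x², z³)`.
-/

namespace Pool.Agent.Lib.MP_3de96c_nt

open MvPolynomial Filter Topology

/-- index set of the coordinates of `P⁵` -/
abbrev I6 := Fin 3 × Fin 2

section

variable {L : Type*} [Field L]

/-- Segre product of vectors -/
def seg (x : Fin 3 → L) (z : Fin 2 → L) : I6 → L := fun p => x p.1 * z p.2

lemma seg_ne_zero {x : Fin 3 → L} {z : Fin 2 → L} (hx : x ≠ 0) (hz : z ≠ 0) : seg x z ≠ 0 := by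
  obtain ⟨i, hi⟩ := Function.ne_iff.mp hx
  obtain ⟨k, hk⟩ := Function.ne_iff.mp hz
  intro h
  have := congrFun h (i, k)
  exact (mul_ne_zero hi hk) this

lemma ne_zero_of_seg {x : Fin 3 → L} {z : Fin 2 → L} (h : seg x z ≠ 0) : x ≠ 0 ∧ z ≠ 0 := by
  constructor
  · rintro rfl
    apply h; ext p; simp [seg]
  · rintro rfl
    apply h; ext p; simp [seg]

lemma seg_smul (c : L) (x : Fin 3 → L) (z : Fin 2 → L) :
    (fun p => c * seg x z p) = seg (fun i => c * x i) z := by
  ext p; simp [seg, mul_assoc]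

/-- powers of vectors -/
def vpow {σ : Type*} (x : σ → L) (m : ℕ) : σ → L := fun i => x i ^ m

lemma vpow_ne_zero {σ : Type*} {x : σ → L} (hx : x ≠ 0) (m : ℕ) : vpow x m ≠ 0 := by
  obtain ⟨i, hi⟩ := Function.ne_iff.mp hx
  intro h
  exact (pow_ne_zero m hi) (congrFun h i)

lemma seg_inj {x x' : Fin 3 → L} {z z' : Fin 2 → L} {c : L} (hc : c ≠ 0)
    (h0 : seg x' z' ≠ 0) (h : seg x z = fun p => c * seg x' z' p) :
    ∃ l m : L, l ≠ 0 ∧ m ≠ 0 ∧ x = (fun i => l * x' i) ∧ z = (fun k => m * z' k) := by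
  obtain ⟨⟨i0, k0⟩, h1⟩ := Function.ne_iff.mp h0
  have h1' : x' i0 * z' k0 ≠ 0 := h1
  have hx0 := left_ne_zero_of_mul h1'
  have hz0 := right_ne_zero_of_mul h1'
  have e : ∀ i k, x i * z k = c * (x' i * z' k) := fun i k => congrFun h (i, k)
  have e0 := e i0 k0
  have h2 : x i0 * z k0 ≠ 0 := by rw [e0]; exact mul_ne_zero hc h1'
  have hx1 := left_ne_zero_of_mul h2
  have hz1 := right_ne_zero_of_mul h2
  refine ⟨c * z' k0 / z k0, c * x' i0 / x i0, ?_, ?_, ?_, ?_⟩
  · exact div_ne_zero (mul_ne_zero hc hz0) hz1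
  · exact div_ne_zero (mul_ne_zero hc hx0) hx1
  · ext i
    have := e i k0
    field_simp
    linear_combination this
  · ext k
    have := e i0 k
    field_simp
    linear_combination this

/-- The Segre variety. -/
def XS (L : Type*) [Field L] : Set (PP L I6) :=
  {w | ∃ (x : Fin 3 → L) (z : Fin 2 → L) (h : seg x z ≠ 0), w = Projectivization.mk L _ h}

/-- the point of the Segre variety given by `x` and `z` -/
def pt (x : Fin 3 → L) (z : Fin 2 → L) (h : seg x z ≠ 0) : XS L :=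
  ⟨Projectivization.mk L _ h, x, z, h, rfl⟩

lemma exists_pt (w : XS L) : ∃ x z h, w = pt x z h := by
  obtain ⟨w, x, z, h, hw⟩ := w
  exact ⟨x, z, h, Subtype.ext hw⟩

lemma pt_congr {x x' : Fin 3 → L} {z z' : Fin 2 → L} (h : seg x z ≠ 0) (h' : seg x' z' ≠ 0)
    (hx : x = x') (hz : z = z') : pt x z h = pt x' z' h' := by
  subst hx; subst hz; rfl

lemma pt_eq_iff {x x' : Fin 3 → L} {z z' : Fin 2 → L} (h : seg x z ≠ 0) (h' : seg x' z' ≠ 0) :
    pt x z h = pt x' z' h' ↔
      ∃ l m : L, l ≠ 0 ∧ m ≠ 0 ∧ x = (fun i => l * x' i) ∧ z = (fun k => m * z' k) := by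
  have h1 : pt x z h = pt x' z' h' ↔
      Projectivization.mk L _ h = Projectivization.mk L _ h' := by
    rw [Subtype.ext_iff]; rfl
  rw [h1, mk_eq_mk_iff_scal]
  constructor
  · rintro ⟨c, hc, hv⟩
    exact seg_inj hc h' hv
  · rintro ⟨l, m, hl, hm, rfl, rfl⟩
    refine ⟨l * m, mul_ne_zero hl hm, ?_⟩
    ext p
    simp only [seg]
    ring

/-- The chosen homogeneous coordinates. -/
noncomputable def cx (w : XS L) : Fin 3 → L := (exists_pt w).choose
/-- The chosen homogeneous coordinates. -/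
noncomputable def cz (w : XS L) : Fin 2 → L := (exists_pt w).choose_spec.choose
lemma chosen (w : XS L) : ∃ h, w = pt (cx w) (cz w) h :=
  (exists_pt w).choose_spec.choose_spec

lemma seg_vpow_ne_zero {x : Fin 3 → L} {z : Fin 2 → L} (h : seg x z ≠ 0) (a b : ℕ) :
    seg (vpow x a) (vpow z b) ≠ 0 :=
  seg_ne_zero (vpow_ne_zero (ne_zero_of_seg h).1 _) (vpow_ne_zero (ne_zero_of_seg h).2 _)

/-- The self-map `(x, z) ↦ (x², z³)`. -/
noncomputable def fX (w : XS L) : XS L :=
  pt (vpow (cx w) 2) (vpow (cz w) 3) (seg_vpow_ne_zero (chosen w).choose 2 3)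

lemma fX_pt (x : Fin 3 → L) (z : Fin 2 → L) (h : seg x z ≠ 0) :
    fX (pt x z h) = pt (vpow x 2) (vpow z 3) (seg_vpow_ne_zero h 2 3) := by
  obtain ⟨h', hw⟩ := chosen (pt x z h)
  obtain ⟨l, m, hl, hm, hx, hz⟩ := (pt_eq_iff h h').mp hw
  unfold fX
  symm
  rw [pt_eq_iff]
  refine ⟨l ^ 2, m ^ 3, pow_ne_zero _ hl, pow_ne_zero _ hm, ?_, ?_⟩
  · ext i
    have := congrFun hx i
    simp only [vpow]
    rw [this]; ring
  · ext i
    have := congrFun hz i
    simp only [vpow]
    rw [this]; ring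

lemma vpow_vpow {σ : Type*} (x : σ → L) (a b : ℕ) : vpow (vpow x a) b = vpow x (a * b) := by
  ext i; simp [vpow, pow_mul]

lemma fX_iterate (n : ℕ) (x : Fin 3 → L) (z : Fin 2 → L) (h : seg x z ≠ 0) :
    fX^[n] (pt x z h) = pt (vpow x (2 ^ n)) (vpow z (3 ^ n)) (seg_vpow_ne_zero h _ _) := by
  induction n with
  | zero =>
    apply pt_congr
    · ext i; simp [vpow]
    · ext i; simp [vpow]
  | succ n ih =>
    rw [Function.iterate_succ_apply', ih, fX_pt]
    apply pt_congr
    · rw [vpow_vpow, pow_succ]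
    · rw [vpow_vpow, pow_succ]

lemma vroot [IsAlgClosed L] {σ : Type*} (x : σ → L) {m : ℕ} (hm : 0 < m) :
    ∃ y : σ → L, vpow y m = x := by
  choose g hg using fun a : L => IsAlgClosed.exists_pow_nat_eq a hm
  exact ⟨fun i => g (x i), by ext i; simp [vpow, hg]⟩

lemma ne_zero_of_vpow {σ : Type*} {x : σ → L} {m : ℕ} (hm : 0 < m) (h : vpow x m ≠ 0) : x ≠ 0 := by
  rintro rfl
  apply h
  ext i; simp [vpow, hm.ne']

lemma fX_surjective [IsAlgClosed L] : Function.Surjective (fX : XS L → XS L) := by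
  intro w
  obtain ⟨x, z, h, rfl⟩ := exists_pt w
  obtain ⟨x', rfl⟩ := vroot x (m := 2) (by norm_num)
  obtain ⟨z', rfl⟩ := vroot z (m := 3) (by norm_num)
  have h1 := ne_zero_of_seg h
  refine ⟨pt x' z' (seg_ne_zero (ne_zero_of_vpow (by norm_num) h1.1)
    (ne_zero_of_vpow (by norm_num) h1.2)), ?_⟩
  rw [fX_pt]

/-- The Segre variety is closed and defined over any subfield. -/
lemma XS_closed (K : Type*) [Field K] [Algebra K L] : ClosedOver K (XS L) := by
  refine ⟨{F | ∃ (i j : Fin 3) (k l : Fin 2), F = X (i, k) * X (j, l) - X (i, l) * X (j, k)},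
    ?_, ?_⟩
  · rintro F ⟨i, j, k, l, rfl⟩
    refine ⟨2, ?_⟩
    apply IsHomogeneous.sub
    · exact (isHomogeneous_X K (i, k)).mul (isHomogeneous_X K (j, l))
    · exact (isHomogeneous_X K (i, l)).mul (isHomogeneous_X K (j, k))
  · ext w
    constructor
    · rintro ⟨x, z, h, rfl⟩ F ⟨i, j, k, l, rfl⟩
      have hd : (X (i, k) * X (j, l) - X (i, l) * X (j, k) : MvPolynomial I6 K).IsHomogeneous 2 := by
        apply IsHomogeneous.sub
        · exact (isHomogeneous_X K (i, k)).mul (isHomogeneous_X K (j, l))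
        · exact (isHomogeneous_X K (i, l)).mul (isHomogeneous_X K (j, k))
      rw [eval_rep_mk hd]
      simp only [map_sub, map_mul, aeval_X, seg]
      ring
    · intro hw
      have hminor : ∀ i j k l, w.rep (i, k) * w.rep (j, l) = w.rep (i, l) * w.rep (j, k) := by
        intro i j k l
        have := hw (X (i, k) * X (j, l) - X (i, l) * X (j, k)) ⟨i, j, k, l, rfl⟩
        simp only [map_sub, map_mul, aeval_X] at this
        linear_combination this
      obtain ⟨⟨i0, k0⟩, h0⟩ := Function.ne_iff.mp w.rep_nonzero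
      have h0' : w.rep (i0, k0) ≠ 0 := h0
      have hseg : seg (fun i => w.rep (i, k0)) (fun k => w.rep (i0, k) / w.rep (i0, k0)) =
          w.rep := by
        ext ⟨i, k⟩
        simp only [seg]
        have := hminor i i0 k0 k
        field_simp
        linear_combination this
      refine ⟨_, _, by rw [hseg]; exact w.rep_nonzero, ?_⟩
      conv_lhs => rw [← w.mk_rep]
      simp only [hseg]

/-- `fX` is a morphism defined over any subfield. -/
lemma fX_regular (K : Type*) [Field K] [Algebra K L] : RegularOver K (XS L) fX := by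
  intro w
  obtain ⟨x, z, h, rfl⟩ := exists_pt w
  have hxz := ne_zero_of_seg h
  obtain ⟨a, ha⟩ := Function.ne_iff.mp hxz.1
  have ha' : x a ≠ 0 := ha
  have key : ∀ (x' : Fin 3 → L) (z' : Fin 2 → L) (h' : seg x' z' ≠ 0),
      ∃ c : L, c ≠ 0 ∧ (fun p => aeval (pt x' z' h' : PP L I6).rep
        (X p ^ 2 * X (a, p.2) : MvPolynomial I6 K)) =
        fun p => c * x' a * seg (vpow x' 2) (vpow z' 3) p := by
    intro x' z' h'
    obtain ⟨c, hc, hr⟩ := rep_mk _ h'
    refine ⟨c ^ 3, pow_ne_zero _ hc, ?_⟩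
    ext p
    have hr' : (pt x' z' h' : PP L I6).rep = fun p => c * seg x' z' p := hr
    rw [hr']
    simp only [map_mul, map_pow, aeval_X, seg, vpow]
    ring
  refine ⟨3, fun p => X p ^ 2 * X (a, p.2), ?_, ?_, ?_⟩
  · intro p
    have := ((isHomogeneous_X K p).pow 2).mul (isHomogeneous_X K ((a, p.2) : I6))
    simpa using this
  · obtain ⟨c, hc, hr⟩ := key x z h
    rw [hr]
    have h2 := seg_vpow_ne_zero h 2 3
    obtain ⟨p, hp⟩ := Function.ne_iff.mp h2
    intro h3
    have := congrFun h3 p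
    exact (mul_ne_zero (mul_ne_zero hc ha') hp) this
  · intro y hy
    obtain ⟨x', z', h', rfl⟩ := exists_pt y
    obtain ⟨c, hc, hr⟩ := key x' z' h'
    rw [fX_pt]
    change Projectivization.mk L _ (seg_vpow_ne_zero h' 2 3) = _
    rw [eq_comm, mk_eq_mk_iff_scal]
    have hxa : x' a ≠ 0 := by
      intro h0
      apply hy
      rw [hr]
      ext p
      simp [h0]
    exact ⟨c * x' a, mul_ne_zero hc hxa, hr⟩

end

end Pool.Agent.Lib.MP_3de96c_nt
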