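import Mathlib
import Pool.Agent.Lib.MP_3de96c_nt.Segre

/-!
Combinatorics of monomials and the Hilbert function of the graph of `(x, z) ↦ (x^M, z^T)`.
-/

namespace Pool.Agent.Lib.MP_3de96c_nt

open MvPolynomial Filter Topology

section comb

variable {σ τ : Type*} [Fintype σ] [Fintype τ]

lemma sub_sum (q : σ → ℕ) (n : ℕ) (hn : n ≤ ∑ i, q i) :
    ∃ r : σ → ℕ, (∀ i, r i ≤ q i) ∧ ∑ i, r i = n := by
  classical
  induction n with
  | zero => exact ⟨fun _ => 0, fun _ => Nat.zero_le _, by simp⟩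
  | succ n ih =>
    obtain ⟨r, hr, hs⟩ := ih (by omega)
    obtain ⟨i, -, hi⟩ : ∃ i ∈ (Finset.univ : Finset σ), r i < q i := by
      apply Finset.exists_lt_of_sum_lt
      omega
    refine ⟨Function.update r i (r i + 1), ?_, ?_⟩
    · intro j
      by_cases hj : j = i
      · subst hj; rw [Function.update_self]; exact hi
      · rw [Function.update_of_ne hj]; exact hr j
    · rw [Finset.sum_update_of_mem (Finset.mem_univ i)]
      have := Finset.add_sum_erase Finset.univ r (Finset.mem_univ i)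
      rw [Finset.sdiff_singleton_eq_erase]
      omega

lemma split_sum (P : σ → ℕ) (a b M : ℕ) (hM : 0 < M) (ha : Fintype.card σ * M ≤ a)
    (hP : ∑ i, P i = a + M * b) :
    ∃ p p' : σ → ℕ, (∀ i, P i = p i + M * p' i) ∧ ∑ i, p i = a ∧ ∑ i, p' i = b := by
  have h1 : b ≤ ∑ i, P i / M := by
    by_contra hlt
    push Not at hlt
    have h2 : ∀ i, P i ≤ M * (P i / M) + M := by
      intro i
      have := Nat.div_add_mod (P i) M
      have := Nat.mod_lt (P i) hM
      omega
    have h3 : ∑ i, P i ≤ ∑ i, (M * (P i / M) + M) := Finset.sum_le_sum fun i _ => h2 i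
    rw [Finset.sum_add_distrib, ← Finset.mul_sum, Finset.sum_const, Finset.card_univ,
      smul_eq_mul, hP] at h3
    have h4 : M * (∑ i, P i / M) + M ≤ M * b := by
      have : (∑ i, P i / M) + 1 ≤ b := hlt
      calc M * (∑ i, P i / M) + M = M * ((∑ i, P i / M) + 1) := by ring
        _ ≤ M * b := Nat.mul_le_mul_left M this
    omega
  obtain ⟨r, hr, hs⟩ := sub_sum (fun i => P i / M) b h1
  have h5 : ∀ i, M * r i ≤ P i := fun i =>
    (Nat.mul_le_mul_left M (hr i)).trans (Nat.mul_div_le (P i) M)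
  refine ⟨fun i => P i - M * r i, r, fun i => ?_, ?_, hs⟩
  · have := h5 i; simp only; omega
  · have h6 : ∑ i, (P i - M * r i) + ∑ i, M * r i = ∑ i, P i := by
      rw [← Finset.sum_add_distrib]
      exact Finset.sum_congr rfl fun i _ => Nat.sub_add_cancel (h5 i)
    rw [← Finset.mul_sum, hs, hP] at h6
    change ∑ i, (P i - M * r i) = a
    omega

lemma contingency (n : ℕ) : ∀ (p : σ → ℕ) (q : τ → ℕ), ∑ i, p i = n → ∑ k, q k = n →
    ∃ α : σ → τ → ℕ, (∀ i, ∑ k, α i k = p i) ∧ (∀ k, ∑ i, α i k = q k) := by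
  classical
  induction n with
  | zero =>
    intro p q hp hq
    refine ⟨fun _ _ => 0, fun i => ?_, fun k => ?_⟩
    · have := (Finset.sum_eq_zero_iff.mp hp) i (Finset.mem_univ i)
      simp [this]
    · have := (Finset.sum_eq_zero_iff.mp hq) k (Finset.mem_univ k)
      simp [this]
  | succ n ih =>
    intro p q hp hq
    obtain ⟨i, hi⟩ : ∃ i, p i ≠ 0 := by
      by_contra h; push Not at h
      rw [Finset.sum_eq_zero (fun i _ => h i)] at hp; omega
    obtain ⟨k, hk⟩ : ∃ k, q k ≠ 0 := by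
      by_contra h; push Not at h
      rw [Finset.sum_eq_zero (fun i _ => h i)] at hq; omega
    obtain ⟨p', hp'⟩ : ∃ p' : σ → ℕ, ∀ j, p j = p' j + if j = i then 1 else 0 := by
      refine ⟨fun j => p j - if j = i then 1 else 0, fun j => ?_⟩
      by_cases hj : j = i
      · subst hj; simp; omega
      · simp [hj]
    obtain ⟨q', hq'⟩ : ∃ q' : τ → ℕ, ∀ j, q j = q' j + if j = k then 1 else 0 := by
      refine ⟨fun j => q j - if j = k then 1 else 0, fun j => ?_⟩
      by_cases hj : j = k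
      · subst hj; simp; omega
      · simp [hj]
    have hp1 : ∑ j, p' j = n := by
      have : ∑ j, p j = ∑ j, p' j + 1 := by
        rw [Finset.sum_congr rfl (fun j _ => hp' j), Finset.sum_add_distrib]
        simp
      omega
    have hq1 : ∑ j, q' j = n := by
      have : ∑ j, q j = ∑ j, q' j + 1 := by
        rw [Finset.sum_congr rfl (fun j _ => hq' j), Finset.sum_add_distrib]
        simp
      omega
    obtain ⟨α, h1, h2⟩ := ih p' q' hp1 hq1
    refine ⟨fun j l => α j l + if j = i ∧ l = k then 1 else 0, fun j => ?_, fun l => ?_⟩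
    · rw [Finset.sum_add_distrib, h1, hp' j]
      congr 1
      by_cases hj : j = i <;> simp [hj]
    · rw [Finset.sum_add_distrib, h2, hq' l]
      congr 1
      by_cases hl : l = k <;> simp [hl]

end comb

section rangeX

variable (L : Type*) [Field L]

/-- parametrisation of the Segre variety -/
noncomputable def UX (M T : ℕ) : I6 → MvPolynomial (Fin 3 ⊕ Fin 2) L :=
  fun p => X (Sum.inl p.1) ^ M * X (Sum.inr p.2) ^ T

lemma UX_wh (M T : ℕ) (p : I6) : (UX L M T p).IsWeightedHomogeneous (bw (Fin 3) (Fin 2)) (M, T) := by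
  have h1 := ((isWeightedHomogeneous_X L (bw (Fin 3) (Fin 2)) (Sum.inl p.1)).pow M).mul
    ((isWeightedHomogeneous_X L (bw (Fin 3) (Fin 2)) (Sum.inr p.2)).pow T)
  have h2 : M • (bw (Fin 3) (Fin 2) (Sum.inl p.1)) + T • (bw (Fin 3) (Fin 2) (Sum.inr p.2)) =
      (M, T) := by simp
  rw [h2] at h1
  exact h1

lemma range_le {σ τ : Type*} (U U' : I6 → MvPolynomial (σ ⊕ τ) L) (w w' : ℕ × ℕ)
    (hU : ∀ p, (U p).IsWeightedHomogeneous (bw σ τ) w)
    (hU' : ∀ p, (U' p).IsWeightedHomogeneous (bw σ τ) w') (a b : ℕ) :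
    (biHom L I6 a b).map (aeval (Sum.elim U U') :
      MvPolynomial (I6 ⊕ I6) L →ₐ[L] MvPolynomial (σ ⊕ τ) L).toLinearMap ≤
    weightedHomogeneousSubmodule L (bw σ τ) (a • w + b • w') := by
  rintro G ⟨F, hF, rfl⟩
  have hF' : F.IsWeightedHomogeneous (bw I6 I6) (a, b) := hF
  rw [mem_weightedHomogeneousSubmodule]
  induction hF' using IsWeightedHomogeneous.induction_on with
  | zero => rw [map_zero]; exact isWeightedHomogeneous_zero _ _ _
  | add p q hp hq h1 h2 =>
    rw [map_add]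
    exact (h1 hp).add (h2 hq)
  | monomial d r hr =>
    rw [weight_bw, Prod.mk.injEq] at hr
    change (aeval (Sum.elim U U') (monomial d r)).IsWeightedHomogeneous _ _
    rw [aeval_monomial, Finsupp.prod_fintype _ _ (by simp), Fintype.prod_sum_type]
    simp only [Sum.elim_inl, Sum.elim_inr]
    apply IsWeightedHomogeneous.C_mul
    have h1 : a • w = ∑ p, (d (Sum.inl p)) • w := by rw [← hr.1, Finset.sum_smul]
    have h2 : b • w' = ∑ p, (d (Sum.inr p)) • w' := by rw [← hr.2, Finset.sum_smul]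
    rw [h1, h2]
    apply IsWeightedHomogeneous.mul
    · apply IsWeightedHomogeneous.prod
      intro p _
      exact (hU p).pow _
    · apply IsWeightedHomogeneous.prod
      intro p _
      exact (hU' p).pow _

lemma mem_biHom_prod (α β : I6 → ℕ) (r : L) :
    (C r * ((∏ p, X (Sum.inl p) ^ α p) * (∏ p, X (Sum.inr p) ^ β p)) : MvPolynomial (I6 ⊕ I6) L) ∈
      biHom L I6 (∑ p, α p) (∑ p, β p) := by
  change IsWeightedHomogeneous (bw I6 I6) _ _
  apply IsWeightedHomogeneous.C_mul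
  have h : ((∑ p, α p, ∑ p, β p) : ℕ × ℕ) = ∑ p, (α p) • ((1, 0) : ℕ × ℕ) +
      ∑ p, (β p) • ((0, 1) : ℕ × ℕ) := by
    rw [← Finset.sum_smul, ← Finset.sum_smul]; simp
  rw [h]
  apply IsWeightedHomogeneous.mul
  · apply IsWeightedHomogeneous.prod
    intro p _
    exact (isWeightedHomogeneous_X L (bw I6 I6) (Sum.inl p)).pow _
  · apply IsWeightedHomogeneous.prod
    intro p _
    exact (isWeightedHomogeneous_X L (bw I6 I6) (Sum.inr p)).pow _

lemma prod_identity {R : Type*} [CommRing R] (x : Fin 3 → R) (z : Fin 2 → R) (M T : ℕ)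
    (α β : Fin 3 → Fin 2 → ℕ) (p p' : Fin 3 → ℕ) (q q' : Fin 2 → ℕ)
    (hα1 : ∀ i, ∑ k, α i k = p i) (hα2 : ∀ k, ∑ i, α i k = q k)
    (hβ1 : ∀ i, ∑ k, β i k = p' i) (hβ2 : ∀ k, ∑ i, β i k = q' k) :
    (∏ y : I6, (x y.1 ^ 1 * z y.2 ^ 1) ^ α y.1 y.2) *
      (∏ y : I6, (x y.1 ^ M * z y.2 ^ T) ^ β y.1 y.2) =
    (∏ i, x i ^ (p i + M * p' i)) * (∏ k, z k ^ (q k + T * q' k)) := by
  simp only [pow_one, mul_pow, Finset.prod_mul_distrib, ← pow_mul]
  simp only [Fintype.prod_prod_type]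
  rw [Finset.prod_comm (f := fun (x : Fin 3) (y : Fin 2) => z y ^ α x y)]
  rw [Finset.prod_comm (f := fun (x : Fin 3) (y : Fin 2) => z y ^ (T * β x y))]
  simp only [Finset.prod_pow_eq_pow_sum, ← Finset.mul_sum, hα1, hα2, hβ1, hβ2, pow_add,
    Finset.prod_mul_distrib]
  ring

lemma aeval_prod {σ : Type*} (U U' : I6 → MvPolynomial σ L) (α β : I6 → ℕ) (r : L) :
    (aeval (Sum.elim U U') : MvPolynomial (I6 ⊕ I6) L →ₐ[L] MvPolynomial σ L)
      (C r * ((∏ p, X (Sum.inl p) ^ α p) * (∏ p, X (Sum.inr p) ^ β p))) =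
    C r * ((∏ p, U p ^ α p) * ∏ p, U' p ^ β p) := by
  rw [map_mul, map_mul, algHom_C, algebraMap_eq, map_prod, map_prod]
  simp only [map_pow, aeval_X, Sum.elim_inl, Sum.elim_inr]

lemma monomial_two {σ τ : Type*} [Fintype σ] [Fintype τ] (d : (σ ⊕ τ) →₀ ℕ) (r : L) :
    (monomial d r : MvPolynomial (σ ⊕ τ) L) =
      C r * ((∏ i, X (Sum.inl i) ^ d (Sum.inl i)) * ∏ k, X (Sum.inr k) ^ d (Sum.inr k)) := by
  rw [monomial_eq, Finsupp.prod_fintype _ _ (by simp), Fintype.prod_sum_type]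

lemma range_X (a b M T : ℕ) (hM : 0 < M) (hT : 0 < T) (ha : 3 * M ≤ a) (ha' : 2 * T ≤ a) :
    (biHom L I6 a b).map (aeval (Sum.elim (UX L 1 1) (UX L M T)) :
      MvPolynomial (I6 ⊕ I6) L →ₐ[L] MvPolynomial (Fin 3 ⊕ Fin 2) L).toLinearMap =
    weightedHomogeneousSubmodule L (bw (Fin 3) (Fin 2)) (a + M * b, a + T * b) := by
  apply le_antisymm
  · have h := range_le L (UX L 1 1) (UX L M T) (1, 1) (M, T) (UX_wh L 1 1) (UX_wh L M T) a b
    have h2 : a • ((1, 1) : ℕ × ℕ) + b • ((M, T) : ℕ × ℕ) = (a + M * b, a + T * b) := by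
      simp [mul_comm]
    rw [h2] at h
    exact h
  · intro F hF
    rw [mem_weightedHomogeneousSubmodule] at hF
    induction hF using IsWeightedHomogeneous.induction_on with
    | zero => exact Submodule.zero_mem _
    | add p q hp hq h1 h2 => exact Submodule.add_mem _ h1 h2
    | monomial d r hr =>
      rw [weight_bw, Prod.mk.injEq] at hr
      obtain ⟨p, p', hp, hps, hps'⟩ := split_sum (fun i : Fin 3 => d (Sum.inl i)) a b M hM
        (by simpa using ha) hr.1
      obtain ⟨q, q', hq, hqs, hqs'⟩ := split_sum (fun i : Fin 2 => d (Sum.inr i)) a b T hT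
        (by simpa using ha') hr.2
      obtain ⟨α, hα1, hα2⟩ := contingency a p q hps hqs
      obtain ⟨β, hβ1, hβ2⟩ := contingency b p' q' hps' hqs'
      have hmem := mem_biHom_prod L (fun x => α x.1 x.2) (fun x => β x.1 x.2) r
      have e1 : ∑ x : I6, α x.1 x.2 = a := by
        rw [Fintype.sum_prod_type, ← hps]
        exact Finset.sum_congr rfl fun i _ => hα1 i
      have e2 : ∑ x : I6, β x.1 x.2 = b := by
        rw [Fintype.sum_prod_type, ← hps']
        exact Finset.sum_congr rfl fun i _ => hβ1 i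
      rw [e1, e2] at hmem
      refine ⟨_, hmem, ?_⟩
      rw [AlgHom.toLinearMap_apply, aeval_prod, monomial_two]
      refine congrArg (fun q => C r * q) ?_
      have hid := prod_identity (fun i => (X (Sum.inl i) : MvPolynomial (Fin 3 ⊕ Fin 2) L))
        (fun k => (X (Sum.inr k) : MvPolynomial (Fin 3 ⊕ Fin 2) L)) M T α β p p' q q'
        hα1 hα2 hβ1 hβ2
      have h3 : ∀ i : Fin 3, d (Sum.inl i) = p i + M * p' i := hp
      have h4 : ∀ i : Fin 2, d (Sum.inr i) = q i + T * q' i := hq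
      simp only [h3, h4]
      exact hid

end rangeX

end Pool.Agent.Lib.MP_3de96c_nt
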