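import Mathlib
import Pool.Agent.Lib.MP_3de96c_nt.Comb

/-!
The lines `Y ζ : x₁ = ζ x₀, z = (1 : 1)` and the mixed degrees of the graphs.
-/

namespace Pool.Agent.Lib.MP_3de96c_nt

open MvPolynomial Filter Topology

section

variable {L : Type*} [Field L]

/-- the vector `(u, ζ u, v)` -/
def ln (ζ u v : L) : Fin 3 → L := ![u, ζ * u, v]

/-- the vector `(1, 1)` -/
def one2 (L : Type*) [Field L] : Fin 2 → L := fun _ => 1

lemma one2_ne_zero : one2 L ≠ 0 := by
  intro h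
  have := congrFun h 0
  simp [one2] at this

lemma vpow_one2 (m : ℕ) : vpow (one2 L) m = one2 L := by
  ext i; simp [vpow, one2]

lemma ln_ne_zero {ζ u v : L} (h : u ≠ 0 ∨ v ≠ 0) : ln ζ u v ≠ 0 := by
  intro h0
  rcases h with h | h
  · exact h (congrFun h0 0)
  · exact h (congrFun h0 2)

lemma of_ln_ne_zero {ζ u v : L} (h : ln ζ u v ≠ 0) : u ≠ 0 ∨ v ≠ 0 := by
  by_contra hc
  push Not at hc
  apply h
  ext i
  fin_cases i <;> simp [ln, hc.1, hc.2]

lemma vpow_ln (ζ u v : L) (m : ℕ) : vpow (ln ζ u v) m = ln (ζ ^ m) (u ^ m) (v ^ m) := by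
  ext i
  fin_cases i <;> simp [ln, vpow, mul_pow]

/-- the line `Y ζ` -/
def YS (ζ : L) : Set (XS L) :=
  {w | ∃ (u v : L) (h : seg (ln ζ u v) (one2 L) ≠ 0), w = pt _ _ h}

lemma pt_mem_YS (ζ u v : L) (h : seg (ln ζ u v) (one2 L) ≠ 0) : pt _ _ h ∈ YS ζ := ⟨u, v, h, rfl⟩

lemma image_YS [IsAlgClosed L] (ζ : L) (s : ℕ) : fX^[s] '' YS ζ = YS (ζ ^ (2 ^ s)) := by
  have h2 : 0 < 2 ^ s := by positivity
  ext w
  constructor
  · rintro ⟨_, ⟨u, v, h, rfl⟩, rfl⟩
    rw [fX_iterate]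
    refine ⟨u ^ (2 ^ s), v ^ (2 ^ s), ?_, ?_⟩
    · have := seg_vpow_ne_zero h (2 ^ s) (3 ^ s)
      rwa [vpow_ln, vpow_one2] at this
    · apply pt_congr
      · rw [vpow_ln]
      · rw [vpow_one2]
  · rintro ⟨u, v, h, rfl⟩
    obtain ⟨u', hu⟩ := IsAlgClosed.exists_pow_nat_eq u h2
    obtain ⟨v', hv⟩ := IsAlgClosed.exists_pow_nat_eq v h2
    have h3 := of_ln_ne_zero (ne_zero_of_seg h).1
    have h4 : u' ≠ 0 ∨ v' ≠ 0 := by
      rcases h3 with h3 | h3
      · left; rintro rfl; apply h3; rw [← hu]; exact zero_pow h2.ne'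
      · right; rintro rfl; apply h3; rw [← hv]; exact zero_pow h2.ne'
    refine ⟨pt (ln ζ u' v') (one2 L) (seg_ne_zero (ln_ne_zero h4) one2_ne_zero),
      pt_mem_YS _ _ _ _, ?_⟩
    rw [fX_iterate]
    apply pt_congr
    · rw [vpow_ln, hu, hv]
    · rw [vpow_one2]

lemma YS_inj {ζ ζ' : L} (h : YS ζ = YS ζ') : ζ = ζ' := by
  have h1 : pt (ln ζ 1 0) (one2 L) (seg_ne_zero (ln_ne_zero (Or.inl one_ne_zero)) one2_ne_zero) ∈
      YS ζ' := by
    rw [← h]; exact pt_mem_YS _ _ _ _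
  obtain ⟨u, v, h2, h3⟩ := h1
  rw [pt_eq_iff] at h3
  obtain ⟨l, m, hl, hm, hx, -⟩ := h3
  have e0 : (1 : L) = l * u := congrFun hx 0
  have e1 : ζ * 1 = l * (ζ' * u) := congrFun hx 1
  linear_combination e1 - ζ' * e0

/-- the parametrisation of `Y ζ` -/
noncomputable def UY (ζ : L) (M : ℕ) : I6 → MvPolynomial (Fin 2 ⊕ Fin 0) L :=
  fun p => (![X (Sum.inl 0) ^ M, C ζ * X (Sum.inl 0) ^ M, X (Sum.inl 1) ^ M] :
    Fin 3 → MvPolynomial (Fin 2 ⊕ Fin 0) L) p.1

lemma aeval_UY (ζ : L) (M : ℕ) (t : Fin 2 ⊕ Fin 0 → L) :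
    (fun p => aeval t (UY ζ M p)) =
      seg (ln ζ (t (Sum.inl 0) ^ M) (t (Sum.inl 1) ^ M)) (one2 L) := by
  ext ⟨i, k⟩
  fin_cases i <;> simp [UY, seg, ln, one2]

lemma UY_wh (ζ : L) (M : ℕ) (p : I6) :
    (UY ζ M p).IsWeightedHomogeneous (bw (Fin 2) (Fin 0)) (M, 0) := by
  have h0 : ∀ j : Fin 2, (X (Sum.inl j) ^ M : MvPolynomial (Fin 2 ⊕ Fin 0) L).IsWeightedHomogeneous
      (bw (Fin 2) (Fin 0)) (M, 0) := by
    intro j
    have h1 := (isWeightedHomogeneous_X L (bw (Fin 2) (Fin 0)) (Sum.inl j)).pow M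
    have h2 : M • (bw (Fin 2) (Fin 0) (Sum.inl j)) = (M, 0) := by simp
    rw [h2] at h1
    exact h1
  obtain ⟨i, k⟩ := p
  fin_cases i
  · exact h0 0
  · exact (h0 0).C_mul ζ
  · exact h0 1

lemma range_Y (ζ : L) (a b M : ℕ) (hM : 0 < M) (ha : 2 * M ≤ a) :
    (biHom L I6 a b).map (aeval (Sum.elim (UY ζ 1) (UY ζ M)) :
      MvPolynomial (I6 ⊕ I6) L →ₐ[L] MvPolynomial (Fin 2 ⊕ Fin 0) L).toLinearMap =
    weightedHomogeneousSubmodule L (bw (Fin 2) (Fin 0)) (a + M * b, 0) := by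
  apply le_antisymm
  · have h := range_le L (UY ζ 1) (UY ζ M) (1, 0) (M, 0) (UY_wh ζ 1) (UY_wh ζ M) a b
    have h2 : a • ((1, 0) : ℕ × ℕ) + b • ((M, 0) : ℕ × ℕ) = (a + M * b, 0) := by
      simp [mul_comm]
    rw [h2] at h
    exact h
  · intro F hF
    rw [mem_weightedHomogeneousSubmodule] at hF
    induction hF using IsWeightedHomogeneous.induction_on with
    | zero => exact Submodule.zero_mem _
    | add p q hp hq h1 h2 => exact Submodule.add_mem _ h1 h2
    | monomial d r hr =>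
      rw [weight_bw, Prod.mk.injEq] at hr
      obtain ⟨p, p', hp, hps, hps'⟩ := split_sum (fun i : Fin 2 => d (Sum.inl i)) a b M hM
        (by simpa using ha) hr.1
      set α : (Fin 2 → ℕ) → I6 → ℕ := fun q y =>
        if y.2 = 0 then (![q 0, 0, q 1] : Fin 3 → ℕ) y.1 else 0 with hα
      have hsum : ∀ q : Fin 2 → ℕ, ∑ y, α q y = ∑ i, q i := by
        intro q
        rw [Fintype.sum_prod_type]
        simp [hα, Fin.sum_univ_three, Fin.sum_univ_two]
      have hmem := mem_biHom_prod L (α p) (α p') r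
      rw [hsum, hsum, hps, hps'] at hmem
      refine ⟨_, hmem, ?_⟩
      rw [AlgHom.toLinearMap_apply, aeval_prod, monomial_two]
      refine congrArg (fun q => C r * q) ?_
      have hprod : ∀ (q : Fin 2 → ℕ) (m : ℕ), (∏ y, UY ζ m y ^ α q y) =
          ∏ i : Fin 2, (X (Sum.inl i) : MvPolynomial (Fin 2 ⊕ Fin 0) L) ^ (m * q i) := by
        intro q m
        rw [Fintype.prod_prod_type]
        simp [hα, UY, Fin.prod_univ_three, Fin.prod_univ_two, ← pow_mul]
      rw [hprod, hprod, Fin.prod_univ_zero, mul_one, ← Finset.prod_mul_distrib]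
      refine Finset.prod_congr rfl fun i _ => ?_
      have hpi : d (Sum.inl i) = p i + M * p' i := hp i
      rw [← pow_add, one_mul, hpi]

/-- the cone over the graph on the line -/
lemma cone_Y (ζ : L) (s n : ℕ) (hζ : ζ ^ (2 ^ (s * n)) = ζ) (q : (I6 → L) × (I6 → L)) :
    q ∈ cone (graph (fX^[s]) (YS ζ) n) ↔ ∃ (u v c c' : L), (u ≠ 0 ∨ v ≠ 0) ∧ c ≠ 0 ∧ c' ≠ 0 ∧
      q = (fun p => c * seg (ln ζ u v) (one2 L) p,
        fun p => c' * seg (ln ζ (u ^ (2 ^ (s * n))) (v ^ (2 ^ (s * n)))) (one2 L) p) := by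
  have h2 : 0 < 2 ^ (s * n) := by positivity
  constructor
  · rintro ⟨h1, h2, w, ⟨u, v, h, rfl⟩, hq⟩
    rw [Prod.mk.injEq] at hq
    obtain ⟨hq1, hq2⟩ := hq
    rw [← Function.iterate_mul, fX_iterate] at hq2
    change _ = Projectivization.mk L _ h at hq1
    change _ = Projectivization.mk L _ (seg_vpow_ne_zero h _ _) at hq2
    rw [mk_eq_mk_iff_scal] at hq1 hq2
    obtain ⟨c, hc, e1⟩ := hq1
    obtain ⟨c', hc', e2⟩ := hq2
    refine ⟨u, v, c, c', of_ln_ne_zero (ne_zero_of_seg h).1, hc, hc', ?_⟩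
    ext p
    · exact congrFun e1 p
    · have := congrFun e2 p
      rw [vpow_ln, vpow_one2, hζ] at this
      exact this
  · rintro ⟨u, v, c, c', huv, hc, hc', rfl⟩
    have h := seg_ne_zero (ln_ne_zero (ζ := ζ) huv) (one2_ne_zero (L := L))
    have h' := seg_vpow_ne_zero h (2 ^ (s * n)) (3 ^ (s * n))
    have h'' : seg (ln ζ (u ^ (2 ^ (s * n))) (v ^ (2 ^ (s * n)))) (one2 L) ≠ 0 := by
      rw [vpow_ln, vpow_one2, hζ] at h'
      exact h'
    have hs1 : (fun p => c * seg (ln ζ u v) (one2 L) p) ≠ 0 := by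
      intro h0
      apply h
      ext p
      have := congrFun h0 p
      rcases mul_eq_zero.mp this with h1 | h1
      · exact absurd h1 hc
      · exact h1
    have hs2 : (fun p => c' * seg (ln ζ (u ^ (2 ^ (s * n))) (v ^ (2 ^ (s * n)))) (one2 L) p) ≠ 0 := by
      intro h0
      apply h''
      ext p
      have := congrFun h0 p
      rcases mul_eq_zero.mp this with h1 | h1
      · exact absurd h1 hc'
      · exact h1
    refine ⟨hs1, hs2, pt _ _ h, pt_mem_YS _ _ _ _, ?_⟩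
    rw [Prod.mk.injEq]
    constructor
    · change _ = Projectivization.mk L _ h
      rw [mk_eq_mk_iff_scal]
      exact ⟨c, hc, rfl⟩
    · rw [← Function.iterate_mul, fX_iterate]
      change _ = Projectivization.mk L _ (seg_vpow_ne_zero h _ _)
      rw [mk_eq_mk_iff_scal]
      refine ⟨c', hc', ?_⟩
      ext p
      simp only
      rw [vpow_ln, vpow_one2, hζ]

lemma hilb_Y [Infinite L] (ζ : L) (s n : ℕ) (hζ : ζ ^ (2 ^ (s * n)) = ζ) (a b : ℕ)
    (ha : 2 * 2 ^ (s * n) ≤ a) :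
    hilb (graph (fX^[s]) (YS ζ) n) a b = a + 2 ^ (s * n) * b + 1 := by
  have h2 : 0 < 2 ^ (s * n) := by positivity
  have h := hilb_eq_param (graph (fX^[s]) (YS ζ) n) (UY ζ 1) (UY ζ (2 ^ (s * n)))
    (X (Sum.inl 0)) (MvPolynomial.X_ne_zero _) ?_ ?_ a b
  · rw [h, range_Y ζ a b _ h2 ha, finrank_wh, card_wh]
    simp only [Fintype.card_fin, Nat.choose_zero_right, mul_one]
    have h3 : 2 + (a + 2 ^ (s * n) * b) - 1 = (a + 2 ^ (s * n) * b) + 1 := by omega
    rw [h3, Nat.choose_succ_self_right]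
  · intro q hq
    obtain ⟨u, v, c, c', -, -, -, rfl⟩ := (cone_Y ζ s n hζ q).mp hq
    refine ⟨Sum.elim ![u, v] ![], c, c', ?_⟩
    have e1 := aeval_UY ζ 1 (Sum.elim ![u, v] ![])
    have e2 := aeval_UY ζ (2 ^ (s * n)) (Sum.elim ![u, v] ![])
    ext p
    · have := congrFun e1 p
      simp only [Sum.elim_inl, Matrix.cons_val_zero, Matrix.cons_val_one, pow_one] at this
      simp only [this]
    · have := congrFun e2 p
      simp only [Sum.elim_inl, Matrix.cons_val_zero, Matrix.cons_val_one] at this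
      simp only [this]
  · intro t ht
    rw [aeval_X] at ht
    rw [cone_Y ζ s n hζ]
    refine ⟨t (Sum.inl 0), t (Sum.inl 1), 1, 1, Or.inl ht, one_ne_zero, one_ne_zero, ?_⟩
    rw [aeval_UY, aeval_UY]
    simp only [pow_one, one_mul]

/-- the cone over the graph on the Segre variety -/
lemma cone_X (s n : ℕ) (q : (I6 → L) × (I6 → L)) :
    q ∈ cone (graph (fX^[s]) (Set.univ : Set (XS L)) n) ↔
      ∃ (x : Fin 3 → L) (z : Fin 2 → L) (c c' : L), x ≠ 0 ∧ z ≠ 0 ∧ c ≠ 0 ∧ c' ≠ 0 ∧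
      q = (fun p => c * seg x z p,
        fun p => c' * seg (vpow x (2 ^ (s * n))) (vpow z (3 ^ (s * n))) p) := by
  constructor
  · rintro ⟨h1, h2, w, -, hq⟩
    obtain ⟨x, z, h, rfl⟩ := exists_pt w
    rw [Prod.mk.injEq] at hq
    obtain ⟨hq1, hq2⟩ := hq
    rw [← Function.iterate_mul, fX_iterate] at hq2
    change _ = Projectivization.mk L _ h at hq1
    change _ = Projectivization.mk L _ (seg_vpow_ne_zero h _ _) at hq2
    rw [mk_eq_mk_iff_scal] at hq1 hq2
    obtain ⟨c, hc, e1⟩ := hq1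
    obtain ⟨c', hc', e2⟩ := hq2
    refine ⟨x, z, c, c', (ne_zero_of_seg h).1, (ne_zero_of_seg h).2, hc, hc', ?_⟩
    ext p
    · exact congrFun e1 p
    · exact congrFun e2 p
  · rintro ⟨x, z, c, c', hx, hz, hc, hc', rfl⟩
    have h := seg_ne_zero hx hz
    have h' := seg_vpow_ne_zero h (2 ^ (s * n)) (3 ^ (s * n))
    have hs1 : (fun p => c * seg x z p) ≠ 0 := by
      intro h0
      apply h
      ext p
      have := congrFun h0 p
      rcases mul_eq_zero.mp this with h1 | h1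
      · exact absurd h1 hc
      · exact h1
    have hs2 : (fun p => c' * seg (vpow x (2 ^ (s * n))) (vpow z (3 ^ (s * n))) p) ≠ 0 := by
      intro h0
      apply h'
      ext p
      have := congrFun h0 p
      rcases mul_eq_zero.mp this with h1 | h1
      · exact absurd h1 hc'
      · exact h1
    refine ⟨hs1, hs2, pt _ _ h, Set.mem_univ _, ?_⟩
    rw [Prod.mk.injEq]
    constructor
    · change _ = Projectivization.mk L _ h
      rw [mk_eq_mk_iff_scal]
      exact ⟨c, hc, rfl⟩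
    · rw [← Function.iterate_mul, fX_iterate]
      change _ = Projectivization.mk L _ (seg_vpow_ne_zero h _ _)
      rw [mk_eq_mk_iff_scal]
      exact ⟨c', hc', rfl⟩

lemma aeval_UX (M T : ℕ) (t : Fin 3 ⊕ Fin 2 → L) :
    (fun p => aeval t (UX L M T p)) =
      seg (vpow (fun i => t (Sum.inl i)) M) (vpow (fun k => t (Sum.inr k)) T) := by
  ext ⟨i, k⟩
  simp [UX, seg, vpow]

lemma vpow_one' {σ : Type*} (x : σ → L) : vpow x 1 = x := by
  ext i; simp [vpow]

lemma hilb_X [Infinite L] (s n : ℕ) (a b : ℕ)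
    (ha : 3 * 2 ^ (s * n) ≤ a) (ha' : 2 * 3 ^ (s * n) ≤ a) :
    hilb (graph (fX^[s]) (Set.univ : Set (XS L)) n) a b =
      (a + 2 ^ (s * n) * b + 2).choose 2 * (a + 3 ^ (s * n) * b + 1) := by
  have h2 : 0 < 2 ^ (s * n) := by positivity
  have h3 : 0 < 3 ^ (s * n) := by positivity
  have h := hilb_eq_param (graph (fX^[s]) (Set.univ : Set (XS L)) n) (UX L 1 1)
    (UX L (2 ^ (s * n)) (3 ^ (s * n)))
    (X (Sum.inl 0) * X (Sum.inr 0))
    (mul_ne_zero (MvPolynomial.X_ne_zero _) (MvPolynomial.X_ne_zero _)) ?_ ?_ a b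
  · rw [h, range_X L a b _ _ h2 h3 ha ha', finrank_wh, card_wh]
    simp only [Fintype.card_fin]
    have e1 : 3 + (a + 2 ^ (s * n) * b) - 1 = (a + 2 ^ (s * n) * b) + 2 := by omega
    have e2 : 2 + (a + 3 ^ (s * n) * b) - 1 = (a + 3 ^ (s * n) * b) + 1 := by omega
    rw [e1, e2, Nat.choose_succ_self_right, Nat.choose_symm_add]
  · intro q hq
    obtain ⟨x, z, c, c', -, -, -, -, rfl⟩ := (cone_X s n q).mp hq
    refine ⟨Sum.elim x z, c, c', ?_⟩
    have e1 := aeval_UX 1 1 (Sum.elim x z)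
    have e2 := aeval_UX (2 ^ (s * n)) (3 ^ (s * n)) (Sum.elim x z)
    ext p
    · have := congrFun e1 p
      simp only [Sum.elim_inl, Sum.elim_inr, vpow_one'] at this
      simp only [this]
    · have := congrFun e2 p
      simp only [Sum.elim_inl, Sum.elim_inr] at this
      simp only [this]
  · intro t ht
    rw [map_mul, aeval_X, aeval_X] at ht
    rw [cone_X s n]
    refine ⟨fun i => t (Sum.inl i), fun k => t (Sum.inr k), 1, 1, ?_, ?_, one_ne_zero,
      one_ne_zero, ?_⟩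
    · intro h0; exact left_ne_zero_of_mul ht (congrFun h0 0)
    · intro h0; exact right_ne_zero_of_mul ht (congrFun h0 0)
    · rw [aeval_UX, aeval_UX]
      simp only [vpow_one', one_mul]

end

end Pool.Agent.Lib.MP_3de96c_nt
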