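import Mathlib
import Pool.Agent.Lib.MP_3de96c_nt.Lines

/-!
Dynamical degrees, periods and the final facts about the example.
-/

namespace Pool.Agent.Lib.MP_3de96c_nt

open MvPolynomial Filter Topology

section

variable {L : Type*} [Field L]

/-- coefficients of the Hilbert polynomial for the graph on `P² × P¹` -/
def cX (M T : ℚ) : ℕ → ℕ → ℚ
  | 3, 0 => 1 / 2
  | 2, 1 => T / 2 + M
  | 1, 2 => M * T + M ^ 2 / 2
  | 0, 3 => M ^ 2 * T / 2
  | 2, 0 => 2
  | 1, 1 => 5 * M / 2 + 3 * T / 2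
  | 0, 2 => M ^ 2 / 2 + 3 * M * T / 2
  | 1, 0 => 5 / 2
  | 0, 1 => 3 * M / 2 + T
  | 0, 0 => 1
  | _, _ => 0

/-- coefficients of the Hilbert polynomial for the graph on a line -/
def cY (M : ℚ) : ℕ → ℕ → ℚ
  | 1, 0 => 1
  | 0, 1 => M
  | 0, 0 => 1
  | _, _ => 0

lemma mixed_X [Infinite L] (s n : ℕ) :
    HasMixedDegree (graph (fX^[s]) (Set.univ : Set (XS L)) n) 3
      (3 ^ (s * n) + 2 * 2 ^ (s * n)) := by
  refine ⟨cX (2 ^ (s * n)) (3 ^ (s * n)), ⟨3 * 2 ^ (s * n) + 2 * 3 ^ (s * n), ?_⟩,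
    ⟨3, 0, rfl, ?_⟩, ?_⟩
  · intro a b ha _
    rw [hilb_X s n a b (by omega) (by omega)]
    simp only [Finset.sum_range_succ, Finset.sum_range_zero, cX]
    push_cast
    rw [Nat.cast_choose_two]
    push_cast
    ring
  · norm_num [cX]
  · simp [cX]
    ring

lemma mixed_Y [Infinite L] (ζ : L) (s n : ℕ) (hζ : ζ ^ (2 ^ (s * n)) = ζ) :
    HasMixedDegree (graph (fX^[s]) (YS ζ) n) 1 (2 ^ (s * n)) := by
  refine ⟨cY (2 ^ (s * n)), ⟨2 * 2 ^ (s * n), ?_⟩, ⟨1, 0, rfl, ?_⟩, ?_⟩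
  · intro a b ha _
    rw [hilb_Y ζ s n hζ a b ha]
    simp only [Finset.sum_range_succ, Finset.sum_range_zero, cY]
    push_cast
    ring
  · norm_num [cY]
  · simp [cY]

lemma tendsto_const_root (c : ℝ) (hc : 0 < c) :
    Tendsto (fun n : ℕ => c ^ ((1 : ℝ) / n)) atTop (𝓝 1) := by
  have h1 : Tendsto (fun n : ℕ => (1 : ℝ) / n) atTop (𝓝 0) := tendsto_one_div_atTop_nhds_zero_nat
  have h2 : Tendsto (fun x : ℝ => c ^ x) (𝓝 0) (𝓝 (c ^ (0 : ℝ))) :=
    (Real.continuousAt_const_rpow hc.ne').tendsto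
  rw [Real.rpow_zero] at h2
  exact h2.comp h1

lemma root_pow (q : ℝ) (hq : 0 ≤ q) (s n : ℕ) (hn : n ≠ 0) :
    (q ^ (s * n)) ^ ((1 : ℝ) / n) = q ^ s := by
  rw [pow_mul, one_div, Real.pow_rpow_inv_natCast (by positivity) hn]

lemma firstDynDeg_X [Infinite L] (s : ℕ) :
    FirstDynDeg (fX^[s]) (Set.univ : Set (XS L)) (3 ^ s) := by
  refine ⟨3, fun n => 3 ^ (s * n) + 2 * 2 ^ (s * n), fun n => mixed_X s n, ?_⟩
  have hlow : ∀ᶠ n : ℕ in atTop, (3 : ℝ) ^ s ≤
      ((((3 : ℚ) ^ (s * n) + 2 * 2 ^ (s * n) : ℚ)) : ℝ) ^ ((1 : ℝ) / n) := by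
    filter_upwards [eventually_ne_atTop 0] with n hn
    rw [← root_pow 3 (by norm_num) s n hn]
    apply Real.rpow_le_rpow (by positivity)
    · push_cast
      have : (0 : ℝ) ≤ 2 * 2 ^ (s * n) := by positivity
      linarith
    · positivity
  have hup : ∀ᶠ n : ℕ in atTop,
      ((((3 : ℚ) ^ (s * n) + 2 * 2 ^ (s * n) : ℚ)) : ℝ) ^ ((1 : ℝ) / n) ≤
      (3 : ℝ) ^ ((1 : ℝ) / n) * (3 : ℝ) ^ s := by
    filter_upwards [eventually_ne_atTop 0] with n hn
    rw [← root_pow 3 (by norm_num) s n hn, ← Real.mul_rpow (by norm_num) (by positivity)]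
    apply Real.rpow_le_rpow (by positivity)
    · push_cast
      have : (2 : ℝ) ^ (s * n) ≤ 3 ^ (s * n) := by gcongr; norm_num
      linarith
    · positivity
  have hlim : Tendsto (fun n : ℕ => (3 : ℝ) ^ ((1 : ℝ) / n) * (3 : ℝ) ^ s) atTop
      (𝓝 (1 * 3 ^ s)) := (tendsto_const_root 3 (by norm_num)).mul_const _
  rw [one_mul] at hlim
  exact tendsto_of_tendsto_of_tendsto_of_le_of_le' tendsto_const_nhds hlim hlow hup

lemma firstDynDeg_Y [Infinite L] (ζ : L) (s : ℕ) (hζ : ζ ^ (2 ^ s) = ζ) :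
    FirstDynDeg (fX^[s]) (YS ζ) (2 ^ s) := by
  have hζ' : ∀ n : ℕ, ζ ^ (2 ^ (s * n)) = ζ := by
    intro n
    induction n with
    | zero => simp
    | succ n ih =>
      rw [mul_add, mul_one, pow_add, pow_mul, ih, hζ]
  refine ⟨1, fun n => 2 ^ (s * n), fun n => mixed_Y ζ s n (hζ' n), ?_⟩
  apply Tendsto.congr' _ tendsto_const_nhds
  filter_upwards [eventually_ne_atTop 0] with n hn
  push_cast
  exact (root_pow 2 (by norm_num) s n hn).symm

/-- the Segre variety is irreducible -/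
lemma XS_irred [Infinite L] : Irred (XS L) := by
  have h0 : seg (fun _ => (1 : L)) (one2 L) ≠ 0 := seg_ne_zero
    (by intro h; have := congrFun h 0; simp at this) one2_ne_zero
  apply irred_param (UX L 1 1)
  · exact ⟨_, (pt _ _ h0).2⟩
  · intro w
    constructor
    · rintro ⟨x, z, h, rfl⟩
      have e : (fun p => aeval (Sum.elim x z) (UX L 1 1 p)) = seg x z := by
        rw [aeval_UX]
        simp only [Sum.elim_inl, Sum.elim_inr, vpow_one']
      refine ⟨Sum.elim x z, by rw [e]; exact h, ?_⟩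
      simp only [e]
    · rintro ⟨t, h, rfl⟩
      have e := aeval_UX 1 1 t
      simp only [vpow_one'] at e
      refine ⟨fun i => t (Sum.inl i), fun k => t (Sum.inr k), by rw [← e]; exact h, ?_⟩
      simp only [e]

lemma YS_image_val (ζ : L) (w : PP L I6) : w ∈ (Subtype.val '' YS ζ : Set (PP L I6)) ↔
    ∃ (u v : L) (h : seg (ln ζ u v) (one2 L) ≠ 0), w = Projectivization.mk L _ h := by
  constructor
  · rintro ⟨_, ⟨u, v, h, rfl⟩, rfl⟩
    exact ⟨u, v, h, rfl⟩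
  · rintro ⟨u, v, h, rfl⟩
    exact ⟨pt _ _ h, pt_mem_YS _ _ _ _, rfl⟩

lemma YS_irred [Infinite L] (ζ : L) : Irred (Subtype.val '' YS ζ : Set (PP L I6)) := by
  have h0 : seg (ln ζ 0 1) (one2 L) ≠ 0 := seg_ne_zero (ln_ne_zero (Or.inr one_ne_zero))
    one2_ne_zero
  apply irred_param (UY ζ 1)
  · exact ⟨_, (YS_image_val ζ _).mpr ⟨0, 1, h0, rfl⟩⟩
  · intro w
    rw [YS_image_val]
    constructor
    · rintro ⟨u, v, h, rfl⟩
      have e : (fun p => aeval (Sum.elim ![u, v] ![]) (UY ζ 1 p)) =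
          seg (ln ζ u v) (one2 L) := by
        rw [aeval_UY]; simp
      refine ⟨Sum.elim ![u, v] ![], by rw [e]; exact h, ?_⟩
      simp only [e]
    · rintro ⟨t, h, rfl⟩
      have e := aeval_UY ζ 1 t
      simp only [pow_one] at e
      refine ⟨t (Sum.inl 0), t (Sum.inl 1), by rw [← e]; exact h, ?_⟩
      simp only [e]

lemma YS_closed (ζ : L) : ClosedOver L (Subtype.val '' YS ζ : Set (PP L I6)) := by
  have hh1 : ∀ i : Fin 3, (X (i, 0) - X (i, 1) : MvPolynomial I6 L).IsHomogeneous 1 := fun i =>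
    (isHomogeneous_X L (i, 0)).sub (isHomogeneous_X L (i, 1))
  have hh2 : ∀ k : Fin 2, (X (1, k) - C ζ * X (0, k) : MvPolynomial I6 L).IsHomogeneous 1 := by
    intro k
    refine (isHomogeneous_X L (1, k)).sub ?_
    have := (isHomogeneous_C I6 ζ).mul (isHomogeneous_X L ((0, k) : I6))
    simpa using this
  refine ⟨{F | (∃ i : Fin 3, F = X (i, 0) - X (i, 1)) ∨
    (∃ k : Fin 2, F = X (1, k) - C ζ * X (0, k))}, ?_, ?_⟩
  · rintro F (⟨i, rfl⟩ | ⟨k, rfl⟩)
    · exact ⟨1, hh1 i⟩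
    · exact ⟨1, hh2 k⟩
  · ext w
    rw [YS_image_val]
    constructor
    · rintro ⟨u, v, h, rfl⟩ F (⟨i, rfl⟩ | ⟨k, rfl⟩)
      · rw [eval_rep_mk (hh1 i)]
        simp [seg, one2]
      · rw [eval_rep_mk (hh2 k)]
        simp [seg, one2, ln]
    · intro hw
      have e1 : ∀ i, w.rep (i, 0) = w.rep (i, 1) := by
        intro i
        have := hw (X (i, 0) - X (i, 1)) (Or.inl ⟨i, rfl⟩)
        simp only [map_sub, aeval_X] at this
        linear_combination this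
      have e2 : ∀ k, w.rep (1, k) = ζ * w.rep (0, k) := by
        intro k
        have := hw (X (1, k) - C ζ * X (0, k)) (Or.inr ⟨k, rfl⟩)
        simp only [map_sub, aeval_X, map_mul, algHom_C] at this
        have h3 : (algebraMap L L) ζ = ζ := rfl
        rw [h3] at this
        linear_combination this
      have hseg : seg (ln ζ (w.rep (0, 0)) (w.rep (2, 0))) (one2 L) = w.rep := by
        ext ⟨i, k⟩
        have h4 : w.rep (i, k) = w.rep (i, 0) := by
          fin_cases k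
          · rfl
          · exact (e1 i).symm
        rw [h4]
        fin_cases i
        · simp [seg, ln, one2]
        · simp only [seg, ln, one2, mul_one]
          exact (e2 0).symm
        · simp [seg, ln, one2]
      refine ⟨w.rep (0, 0), w.rep (2, 0), by rw [hseg]; exact w.rep_nonzero, ?_⟩
      conv_lhs => rw [← w.mk_rep]
      simp only [hseg]

/-- the exact period of `Y ζ` -/
lemma period_YS [IsAlgClosed L] (ζ : L) (m : ℕ) (hm : 0 < m)
    (hζ : IsPrimitiveRoot ζ (2 ^ m - 1)) :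
    IsLeast {s : ℕ | 0 < s ∧ fX^[s] '' YS ζ = YS ζ} m := by
  have h2m : 1 ≤ 2 ^ m := Nat.one_le_two_pow
  have hz0 : ζ ^ (2 ^ m) = ζ := by
    have h1 : 2 ^ m = (2 ^ m - 1) + 1 := by omega
    rw [h1, pow_succ, hζ.pow_eq_one, one_mul]
  refine ⟨⟨hm, by rw [image_YS, hz0]⟩, ?_⟩
  rintro s ⟨hs, hs2⟩
  rw [image_YS] at hs2
  have h3 := YS_inj hs2
  have h2s : 1 ≤ 2 ^ s := Nat.one_le_two_pow
  have hne : ζ ≠ 0 := by
    have h5 : 2 ≤ 2 ^ m := by
      calc 2 = 2 ^ 1 := rfl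
        _ ≤ 2 ^ m := Nat.pow_le_pow_right (by norm_num) hm
    exact hζ.ne_zero (by omega)
  have h4 : ζ ^ (2 ^ s - 1) = 1 := by
    have h1 : 2 ^ s = (2 ^ s - 1) + 1 := by omega
    rw [h1, pow_succ] at h3
    have : (ζ ^ (2 ^ s - 1) - 1) * ζ = 0 := by linear_combination h3
    rcases mul_eq_zero.mp this with h | h
    · linear_combination h
    · exact absurd h hne
  have h5 := hζ.dvd_of_pow_eq_one _ h4
  have h6 : 2 ≤ 2 ^ s := by
    calc 2 = 2 ^ 1 := rfl
      _ ≤ 2 ^ s := Nat.pow_le_pow_right (by norm_num) hs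
  have h7 := Nat.le_of_dvd (by omega) h5
  have h8 : 2 ^ m ≤ 2 ^ s := by omega
  exact (Nat.pow_le_pow_iff_right (by norm_num)).mp h8

lemma ptDegree_eq_one (K : Type*) [Field K] [Algebra K L] :
    ∃ h : seg (![0, 0, 1] : Fin 3 → L) (one2 L) ≠ 0,
      ptDegree K (pt (![0, 0, 1] : Fin 3 → L) (one2 L) h : PP L I6) = 1 := by
  have h : seg (![0, 0, 1] : Fin 3 → L) (one2 L) ≠ 0 := by
    apply seg_ne_zero _ one2_ne_zero
    intro h0
    have := congrFun h0 2
    simp at this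
  refine ⟨h, ?_⟩
  unfold ptDegree
  obtain ⟨c, hc, hr⟩ := rep_mk _ h
  have hr' : (pt (![0, 0, 1] : Fin 3 → L) (one2 L) h : PP L I6).rep =
      fun p => c * seg (![0, 0, 1] : Fin 3 → L) (one2 L) p := hr
  have hadj : IntermediateField.adjoin K {t : L | ∃ i j,
      (pt (![0, 0, 1] : Fin 3 → L) (one2 L) h : PP L I6).rep j ≠ 0 ∧
      t = (pt (![0, 0, 1] : Fin 3 → L) (one2 L) h : PP L I6).rep i /
        (pt (![0, 0, 1] : Fin 3 → L) (one2 L) h : PP L I6).rep j} = ⊥ := by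
    rw [IntermediateField.adjoin_eq_bot_iff]
    rintro t ⟨⟨i, k⟩, ⟨j, l⟩, hj, rfl⟩
    rw [hr'] at hj ⊢
    simp only [seg, one2, mul_one] at hj ⊢
    have hj2 : j = 2 := by
      fin_cases j
      · exact absurd (by simp) hj
      · exact absurd (by simp) hj
      · rfl
    subst hj2
    have hden : (![0, 0, 1] : Fin 3 → L) 2 = 1 := rfl
    rw [hden]
    fin_cases i
    · simp
    · simp
    · simp [hc]
  rw [hadj, IntermediateField.finrank_bot]

end

end Pool.Agent.Lib.MP_3de96c_nt
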